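import Pool.Agent.H48.FXD.Defs

set_option autoImplicit false

open Bundle Manifold Filter Set MeasureTheory
open scoped ContDiff Topology ENNReal

namespace Pool.Agent.H16.FXD

open Pool.Agent.H48.FXD

section Bare

variable {E : Type*} [NormedAddCommGroup E] [NormedSpace ℝ E]
  {M : Type*} [MetricSpace M] [ChartedSpace E M] [IsManifold 𝓘(ℝ, E) ∞ M]

theorem md_symm {z : M} {y : E} (hy : y ∈ (extChartAt 𝓘(ℝ, E) z).target) :
    MDifferentiableAt 𝓘(ℝ, E) 𝓘(ℝ, E) (extChartAt 𝓘(ℝ, E) z).symm y := by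
  have h := (contMDiffOn_extChartAt_symm (I := 𝓘(ℝ, E)) (n := ∞) z).contMDiffAt
    ((isOpen_extChartAt_target z).mem_nhds hy)
  exact h.mdifferentiableAt (by simp)

theorem md_chart {z x : M} (hx : x ∈ (extChartAt 𝓘(ℝ, E) z).source) :
    MDifferentiableAt 𝓘(ℝ, E) 𝓘(ℝ, E) (extChartAt 𝓘(ℝ, E) z) x := by
  rw [extChartAt_source] at hx
  have h := contMDiffAt_extChartAt' (I := 𝓘(ℝ, E)) (n := ∞) hx
  exact h.mdifferentiableAt (by simp)

/-- the second component of the differential of the chart -/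
noncomputable def chd (z : M) (q : TangentBundle 𝓘(ℝ, E) M) : E :=
  mfderiv 𝓘(ℝ, E) 𝓘(ℝ, E) (extChartAt 𝓘(ℝ, E) z) q.proj q.2

theorem triv_snd {z : M} {q : TangentBundle 𝓘(ℝ, E) M} (hq : q.proj ∈ (chartAt E z).source) :
    (trivializationAt E (TangentSpace 𝓘(ℝ, E)) z).continuousLinearMapAt ℝ q.proj q.2 =
      (trivializationAt E (TangentSpace 𝓘(ℝ, E)) z q).2 := by
  rw [Trivialization.continuousLinearMapAt_apply, Trivialization.linearMapAt_apply]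
  rw [if_pos (by simpa using hq)]

theorem chd_eq {z : M} {q : TangentBundle 𝓘(ℝ, E) M} (hq : q.proj ∈ (extChartAt 𝓘(ℝ, E) z).source) :
    chd z q = (trivializationAt E (TangentSpace 𝓘(ℝ, E)) z q).2 := by
  have : IsManifold 𝓘(ℝ, E) 1 M := IsManifold.of_le (n := ∞) (by simp)
  rw [extChartAt_source] at hq
  have h := TangentBundle.continuousLinearMapAt_trivializationAt (I := 𝓘(ℝ, E)) hq
  exact (DFunLike.congr_fun h q.2).symm.trans (triv_snd hq)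

theorem continuousOn_chd (z : M) :
    ContinuousOn (chd (E := E) z) {q | q.proj ∈ (extChartAt 𝓘(ℝ, E) z).source} := by
  have : IsManifold 𝓘(ℝ, E) 1 M := IsManifold.of_le (n := ∞) (by simp)
  have h1 : ContinuousOn (fun q : TangentBundle 𝓘(ℝ, E) M =>
      (trivializationAt E (TangentSpace 𝓘(ℝ, E)) z q).2)
      {q | q.proj ∈ (extChartAt 𝓘(ℝ, E) z).source} := by
    refine continuous_snd.comp_continuousOn ?_
    refine (trivializationAt E (TangentSpace 𝓘(ℝ, E)) z).continuousOn.mono ?_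
    intro q hq
    rw [Trivialization.mem_source]
    have hq' : q.proj ∈ (extChartAt 𝓘(ℝ, E) z).source := hq
    rw [extChartAt_source] at hq'
    simpa using hq'
  exact h1.congr fun q hq => chd_eq hq

/-- the vector `w` at the point `y` -/
def cst (w y : E) : TangentBundle 𝓘(ℝ, E) E := ⟨y, w⟩

theorem continuous_cst (w : E) : Continuous (cst (E := E) w) := by
  have h := (tangentBundleModelSpaceHomeomorph (𝕜 := ℝ) (H := E) 𝓘(ℝ, E)).symm.continuous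
  have h2 : Continuous fun y : E => ((y, w) : ModelProd E E) :=
    continuous_id.prodMk continuous_const
  have h3 := h.comp h2
  exact h3

theorem cont_within (z : M) :
    ContinuousOn (tangentMapWithin 𝓘(ℝ, E) 𝓘(ℝ, E)
      (extChartAt 𝓘(ℝ, E) z).symm (extChartAt 𝓘(ℝ, E) z).target)
      (π E (TangentSpace 𝓘(ℝ, E)) ⁻¹' (extChartAt 𝓘(ℝ, E) z).target) := by
  exact (contMDiffOn_extChartAt_symm (I := 𝓘(ℝ, E)) (n := ∞) z).continuousOn_tangentMapWithin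
    (by simp) (isOpen_extChartAt_target z).uniqueMDiffOn

theorem cont_within' (z : M) (w : E) :
    ContinuousOn (fun y : E => tangentMapWithin 𝓘(ℝ, E) 𝓘(ℝ, E)
      (extChartAt 𝓘(ℝ, E) z).symm (extChartAt 𝓘(ℝ, E) z).target (cst w y))
      (extChartAt 𝓘(ℝ, E) z).target := by
  have h1 := cont_within (E := E) (M := M) z
  have h2 : MapsTo (cst (E := E) w) (extChartAt 𝓘(ℝ, E) z).target
      (π E (TangentSpace 𝓘(ℝ, E)) ⁻¹' (extChartAt 𝓘(ℝ, E) z).target) := fun y hy => hy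
  exact ContinuousOn.comp h1 (continuous_cst w).continuousOn h2

theorem tmw_eq {z : M} {w y : E} (hy : y ∈ (extChartAt 𝓘(ℝ, E) z).target) :
    tangentMap 𝓘(ℝ, E) 𝓘(ℝ, E) (extChartAt 𝓘(ℝ, E) z).symm (cst w y) =
    tangentMapWithin 𝓘(ℝ, E) 𝓘(ℝ, E)
      (extChartAt 𝓘(ℝ, E) z).symm (extChartAt 𝓘(ℝ, E) z).target (cst w y) :=
  (tangentMapWithin_eq_tangentMap (p := cst w y)
    ((isOpen_extChartAt_target z).uniqueMDiffOn y hy) (md_symm hy)).symm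

theorem continuousOn_sym (z : M) (w : E) :
    ContinuousOn (fun y : E => tangentMap 𝓘(ℝ, E) 𝓘(ℝ, E) (extChartAt 𝓘(ℝ, E) z).symm (cst w y))
      (extChartAt 𝓘(ℝ, E) z).target :=
  (cont_within' z w).congr fun _ hy => tmw_eq hy

theorem has_comp {h : M → M} (hh : ContMDiff 𝓘(ℝ, E) 𝓘(ℝ, E) ∞ h) {z : M} {y : E}
    (hy : y ∈ (extChartAt 𝓘(ℝ, E) z).target)
    (hs : h ((extChartAt 𝓘(ℝ, E) z).symm y) ∈ (extChartAt 𝓘(ℝ, E) z).source) :
    HasMFDerivAt 𝓘(ℝ, E) 𝓘(ℝ, E)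
      (fun y => extChartAt 𝓘(ℝ, E) z (h ((extChartAt 𝓘(ℝ, E) z).symm y))) y
      ((mfderiv 𝓘(ℝ, E) 𝓘(ℝ, E) (extChartAt 𝓘(ℝ, E) z) (h ((extChartAt 𝓘(ℝ, E) z).symm y))).comp
        ((mfderiv 𝓘(ℝ, E) 𝓘(ℝ, E) h ((extChartAt 𝓘(ℝ, E) z).symm y)).comp
          (mfderiv 𝓘(ℝ, E) 𝓘(ℝ, E) (extChartAt 𝓘(ℝ, E) z).symm y))) := by
  have h1 := (md_symm (E := E) hy).hasMFDerivAt
  have h2 : MDifferentiableAt 𝓘(ℝ, E) 𝓘(ℝ, E) h ((extChartAt 𝓘(ℝ, E) z).symm y) :=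
    hh.contMDiffAt.mdifferentiableAt (by simp)
  have h3 := (md_chart (E := E) hs).hasMFDerivAt
  exact h3.comp y (h2.hasMFDerivAt.comp y h1)

theorem fder_comp {h : M → M} (hh : ContMDiff 𝓘(ℝ, E) 𝓘(ℝ, E) ∞ h) {z : M} {y : E}
    (hy : y ∈ (extChartAt 𝓘(ℝ, E) z).target)
    (hs : h ((extChartAt 𝓘(ℝ, E) z).symm y) ∈ (extChartAt 𝓘(ℝ, E) z).source) (w : E) :
    fderiv ℝ (fun y => extChartAt 𝓘(ℝ, E) z (h ((extChartAt 𝓘(ℝ, E) z).symm y))) y w =
      chd z (tangentMap 𝓘(ℝ, E) 𝓘(ℝ, E) h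
        (tangentMap 𝓘(ℝ, E) 𝓘(ℝ, E) (extChartAt 𝓘(ℝ, E) z).symm (cst w y))) := by
  have h1 := (has_comp hh hy hs).mfderiv
  have h2 := mfderiv_eq_fderiv (𝕜 := ℝ) (E := E) (E' := E)
    (f := fun y => extChartAt 𝓘(ℝ, E) z (h ((extChartAt 𝓘(ℝ, E) z).symm y))) (x := y)
  exact (DFunLike.congr_fun h2 w).symm.trans (DFunLike.congr_fun h1 w)

/-- a tangent vector as an element of the bundle -/
def tb (x : M) (u : E) : TangentBundle 𝓘(ℝ, E) M := ⟨x, u⟩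

theorem tb_congr {x z : M} (hx : x = z) {u v : E} (huv : u = v) :
    tb x u = tb z v := by
  subst hx
  subst huv
  rfl

theorem sym_base (z : M) (v : E) :
    tangentMap 𝓘(ℝ, E) 𝓘(ℝ, E) (extChartAt 𝓘(ℝ, E) z).symm (cst v (extChartAt 𝓘(ℝ, E) z z)) =
      tb z v := by
  have : IsManifold 𝓘(ℝ, E) 1 M := IsManifold.of_le (n := ∞) (by simp)
  have h1 := mfderivWithin_range_extChartAt_symm (I := 𝓘(ℝ, E)) (x := z)
  rw [modelWithCornersSelf_coe, range_id, mfderivWithin_univ] at h1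
  have h2 : (mfderiv 𝓘(ℝ, E) 𝓘(ℝ, E) (extChartAt 𝓘(ℝ, E) z).symm (extChartAt 𝓘(ℝ, E) z z) v : E) =
      v := DFunLike.congr_fun h1 v
  exact tb_congr (extChartAt_to_inv z) h2

theorem chd_base (z : M) (u : E) : chd z (tb z u) = u := by
  have : IsManifold 𝓘(ℝ, E) 1 M := IsManifold.of_le (n := ∞) (by simp)
  have h1 := mfderiv_extChartAt_self (I := 𝓘(ℝ, E)) (x := z)
  exact DFunLike.congr_fun h1 u

theorem tm_base {h : M → M} {z : M} (hz : h z = z) (v : E) :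
    tangentMap 𝓘(ℝ, E) 𝓘(ℝ, E) h (tb z v) = tb (E := E) z (mfderiv 𝓘(ℝ, E) 𝓘(ℝ, E) h z v) :=
  tb_congr hz rfl

end Bare

variable {E : Type*} [NormedAddCommGroup E] [NormedSpace ℝ E] [FiniteDimensional ℝ E]
  {M : Type*} [MetricSpace M] [ChartedSpace E M] [IsManifold 𝓘(ℝ, E) ∞ M]
  [RiemannianBundle (fun x : M => TangentSpace 𝓘(ℝ, E) x)]
  [IsContMDiffRiemannianBundle 𝓘(ℝ, E) ∞ E (fun x : M => TangentSpace 𝓘(ℝ, E) x)]
  [IsRiemannianManifold 𝓘(ℝ, E) M]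

theorem pf_MDC {G : Type*} [Group G] [TopologicalSpace G] [MulAction G M]
    (hact : IsometricAction E M G) {z : M} (hz : ∀ g : G, g • z = z) {V : Set E} (hV : IsOpen V)
    (hVt : V ⊆ (extChartAt 𝓘(ℝ, E) z).target)
    (hVs : ∀ g : G, ∀ y ∈ V, g • (extChartAt 𝓘(ℝ, E) z).symm y ∈ (extChartAt 𝓘(ℝ, E) z).source) :
    (∀ g : G, ∀ y ∈ V, DifferentiableAt ℝ
      (fun y => extChartAt 𝓘(ℝ, E) z (g • (extChartAt 𝓘(ℝ, E) z).symm y)) y) ∧
    ContinuousOn (fun p : G × E => fderiv ℝ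
      (fun y => extChartAt 𝓘(ℝ, E) z (p.1 • (extChartAt 𝓘(ℝ, E) z).symm y)) p.2)
      (univ ×ˢ V) ∧
    ((extChartAt 𝓘(ℝ, E) z z ∈ V) → ∀ g : G, ∀ v : E, fderiv ℝ
      (fun y => extChartAt 𝓘(ℝ, E) z (g • (extChartAt 𝓘(ℝ, E) z).symm y))
        (extChartAt 𝓘(ℝ, E) z z) v = mfderiv 𝓘(ℝ, E) 𝓘(ℝ, E) (fun x : M => g • x) z v) := by
  refine ⟨fun g y hy => ?_, ?_, fun hzV g v => ?_⟩
  · exact mdifferentiableAt_iff_differentiableAt.1
      (has_comp (hact.smooth g) (hVt hy) (hVs g y hy)).mdifferentiableAt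
  · rw [continuousOn_clm_apply]
    intro w
    have h1 : ContinuousOn (fun p : G × E => (tangentMap 𝓘(ℝ, E) 𝓘(ℝ, E)
        (extChartAt 𝓘(ℝ, E) z).symm (cst w p.2))) (univ ×ˢ V) := by
      have h2 := continuousOn_sym (E := E) z w
      exact h2.comp continuous_snd.continuousOn fun p hp => hVt hp.2
    have h3 : ContinuousOn (fun p : G × E => (tangentMap 𝓘(ℝ, E) 𝓘(ℝ, E) (fun x : M => p.1 • x)
        (tangentMap 𝓘(ℝ, E) 𝓘(ℝ, E) (extChartAt 𝓘(ℝ, E) z).symm (cst w p.2)))) (univ ×ˢ V) := by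
      have h4 : ContinuousOn (fun p : G × E => (p.1, tangentMap 𝓘(ℝ, E) 𝓘(ℝ, E)
        (extChartAt 𝓘(ℝ, E) z).symm (cst w p.2))) (univ ×ˢ V) :=
        continuous_fst.continuousOn.prodMk h1
      exact hact.continuous_tangent.comp_continuousOn h4
    have h5 := (continuousOn_chd (E := E) z).comp h3 fun p hp => hVs p.1 p.2 hp.2
    refine h5.congr fun p hp => ?_
    exact fder_comp (hact.smooth p.1) (hVt hp.2) (hVs p.1 p.2 hp.2) w
  · have h1 := fder_comp (hact.smooth g) (hVt hzV) (hVs g _ hzV) v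
    rw [sym_base, tm_base (E := E) (h := fun x : M => g • x) (hz g) v] at h1
    exact h1.trans (chd_base (E := E) z _)

end Pool.Agent.H16.FXD
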