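import Pool.Agent.H48.FXD.Defs

set_option autoImplicit false

open Filter Set MeasureTheory
open scoped Topology

namespace Pool.Agent.H16.FXD

open Pool.Agent.H48.FXD

variable {G : Type*} [Group G] [TopologicalSpace G] [CompactSpace G]
  {E : Type*} [NormedAddCommGroup E] [NormedSpace ℝ E] [FiniteDimensional ℝ E]
  {y₀ : E} {V : Set E} {Ψ : G → E → E} {D : G → E → E →L[ℝ] E}

omit [FiniteDimensional ℝ E] in
theorem ev_D (h : LocAct y₀ V Ψ D) {δ : ℝ} (hδ : 0 < δ) :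
    ∀ᶠ y in 𝓝 y₀, ∀ g : G, ‖D g y - D g y₀‖ ≤ δ := by
  have key : ∀ᶠ y in 𝓝 y₀, ∀ g ∈ (univ : Set G), ‖D g y - D g y₀‖ ≤ δ := by
    apply IsCompact.eventually_forall_of_forall_eventually isCompact_univ
    intro g0 _
    have hc : ContinuousAt (fun p : G × E => D p.1 p.2) (g0, y₀) :=
      h.contD.continuousAt (prod_mem_nhds univ_mem (h.isOpen.mem_nhds h.mem))
    have h1 : Tendsto (fun z : E × G => D z.2 z.1) (𝓝 (y₀, g0)) (𝓝 (D g0 y₀)) := by
      have h2 : ContinuousAt (fun z : E × G => ((z.2, z.1) : G × E)) (y₀, g0) :=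
        (continuous_snd.prodMk continuous_fst).continuousAt
      exact Tendsto.comp (y := 𝓝 (g0, y₀)) hc h2
    have h3 : Tendsto (fun z : E × G => D z.2 y₀) (𝓝 (y₀, g0)) (𝓝 (D g0 y₀)) := by
      have h2 : ContinuousAt (fun z : E × G => ((z.2, y₀) : G × E)) (y₀, g0) :=
        (continuous_snd.prodMk continuous_const).continuousAt
      exact Tendsto.comp (y := 𝓝 (g0, y₀)) hc h2
    have h4 : Tendsto (fun z : E × G => ‖D z.2 z.1 - D z.2 y₀‖) (𝓝 (y₀, g0)) (𝓝 0) := by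
      have h5 := (h1.sub h3).norm
      rw [sub_self, norm_zero] at h5
      exact h5
    exact (h4.eventually (gt_mem_nhds hδ)).mono fun z hz => le_of_lt hz
  exact key.mono fun y hy g => hy g (mem_univ g)

theorem pf_MVL (h : LocAct y₀ V Ψ D) {δ : ℝ} (hδ : 0 < δ) : ∀ᶠ p : E × E in 𝓝 (y₀, y₀),
    ∀ g, ‖Ψ g p.1 - Ψ g p.2 - D g y₀ (p.1 - p.2)‖ ≤ δ * ‖p.1 - p.2‖ := by
  have h1 := (ev_D h hδ).and (h.isOpen.mem_nhds h.mem)
  obtain ⟨r, hr, hball⟩ := Metric.eventually_nhds_iff_ball.1 h1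
  have h2 : ∀ᶠ p : E × E in 𝓝 (y₀, y₀), p.1 ∈ Metric.ball y₀ r ∧ p.2 ∈ Metric.ball y₀ r := by
    filter_upwards [prod_mem_nhds (Metric.ball_mem_nhds y₀ hr) (Metric.ball_mem_nhds y₀ hr)]
      with p hp
    exact hp
  refine h2.mono fun p hp g => ?_
  have h3 := Convex.norm_image_sub_le_of_norm_hasFDerivWithin_le (𝕜 := ℝ)
    (f := fun y => Ψ g y - D g y₀ y) (f' := fun y => D g y - D g y₀) (s := Metric.ball y₀ r)
    (x := p.2) (y := p.1) (C := δ)
    (fun y hy => ((h.deriv g y (hball y hy).2).sub (D g y₀).hasFDerivAt).hasFDerivWithinAt)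
    (fun y hy => (hball y hy).1 g) (convex_ball y₀ r) hp.2 hp.1
  have h4 : Ψ g p.1 - Ψ g p.2 - D g y₀ (p.1 - p.2) =
      (Ψ g p.1 - D g y₀ p.1) - (Ψ g p.2 - D g y₀ p.2) := by
    rw [map_sub]
    abel
  rw [h4]
  exact h3

end Pool.Agent.H16.FXD
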